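import Mathlib
import Pool.Agent.H925R3.DC.Stubs

/-! Task REDC (author helper171): integral point plus nonintegral point is integral. -/

namespace Pool.Agent.Helper171.DCREDC

open Pool.Agent.H925R3.DC

theorem redc : Pool.Agent.H925R3.DC.REDC := by
  intro K _ _ O hO a b x₁ y₁ x₂ y₂ h₁ h₂ hx₁ hx₂
  have e₁ : y₁ ^ 2 = x₁ ^ 3 + (a : K) * x₁ + (b : K) := by
    have := (WeierstrassCurve.Affine.equation_iff (W := crv K (a : K) (b : K)) x₁ y₁).1 h₁.1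
    simpa [crv] using this
  have e₂ : y₂ ^ 2 = x₂ ^ 3 + (a : K) * x₂ + (b : K) := by
    have := (WeierstrassCurve.Affine.equation_iff (W := crv K (a : K) (b : K)) x₂ y₂).1 h₂.1
    simpa [crv] using this
  have hsq : ∀ y : K, y ^ 2 ∈ O → y ∈ O := by
    intro y hy
    rcases hO y with h | h
    · exact h
    · by_cases h0 : y = 0
      · rw [h0]; exact O.zero_mem
      · have : y = y ^ 2 * y⁻¹ := by field_simp
        rw [this]
        exact O.mul_mem hy h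
  have hx10 : x₁ ≠ 0 := by
    intro h; apply hx₁; rw [h]; exact O.zero_mem
  have hx1i : x₁⁻¹ ∈ O := (hO x₁).resolve_left hx₁
  have hd : x₁ - x₂ ∉ O := by
    intro h
    apply hx₁
    have : x₁ = (x₁ - x₂) + x₂ := by ring
    rw [this]
    exact O.add_mem h hx₂
  have hd0 : x₁ - x₂ ≠ 0 := by
    intro h; apply hd; rw [h]; exact O.zero_mem
  have hne : x₁ ≠ x₂ := sub_ne_zero.1 hd0
  have hdi : (x₁ - x₂)⁻¹ ∈ O := (hO _).resolve_left hd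
  have hy2 : y₂ ∈ O := by
    apply hsq
    rw [e₂]
    exact O.add_mem (O.add_mem (O.pow_mem hx₂ 3) (O.mul_mem a.2 hx₂)) b.2
  have ht : y₁ / x₁ ^ 2 ∈ O := by
    apply hsq
    have : (y₁ / x₁ ^ 2) ^ 2 = x₁⁻¹ + (a : K) * x₁⁻¹ ^ 3 + (b : K) * x₁⁻¹ ^ 4 := by
      rw [div_pow, e₁]
      field_simp
    rw [this]
    exact O.add_mem (O.add_mem hx1i (O.mul_mem a.2 (O.pow_mem hx1i 3)))
      (O.mul_mem b.2 (O.pow_mem hx1i 4))
  have hu : x₁ * (x₁ - x₂)⁻¹ ∈ O := by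
    have : x₁ * (x₁ - x₂)⁻¹ = 1 + x₂ * (x₁ - x₂)⁻¹ := by
      field_simp
      ring
    rw [this]
    exact O.add_mem O.one_mem (O.mul_mem hx₂ hdi)
  have hN : ((a : K) - x₂ ^ 2) * x₁⁻¹ + ((b : K) + y₂ ^ 2) * x₁⁻¹ ^ 2 - (y₁ / x₁ ^ 2) * y₂ -
      (y₁ / x₁ ^ 2) * y₂ + (x₂ + x₂) ∈ O := by
    refine O.add_mem (O.sub_mem (O.sub_mem (O.add_mem ?_ ?_) ?_) ?_) (O.add_mem hx₂ hx₂)
    · exact O.mul_mem (O.sub_mem a.2 (O.pow_mem hx₂ 2)) hx1i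
    · exact O.mul_mem (O.add_mem b.2 (O.pow_mem hy2 2)) (O.pow_mem hx1i 2)
    · exact O.mul_mem ht hy2
    · exact O.mul_mem ht hy2
  refine ⟨_, _, _, ?_, WeierstrassCurve.Affine.Point.add_of_X_ne hne⟩
  rw [WeierstrassCurve.Affine.slope_of_X_ne hne]
  have hx3 : (crv K (a : K) (b : K)).addX x₁ x₂ ((y₁ - y₂) / (x₁ - x₂)) =
      (((a : K) - x₂ ^ 2) * x₁⁻¹ + ((b : K) + y₂ ^ 2) * x₁⁻¹ ^ 2 - (y₁ / x₁ ^ 2) * y₂ -
      (y₁ / x₁ ^ 2) * y₂ + (x₂ + x₂)) * (x₁ * (x₁ - x₂)⁻¹) ^ 2 - x₂ := by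
    simp only [WeierstrassCurve.Affine.addX, crv]
    field_simp
    linear_combination e₁
  rw [hx3]
  exact O.sub_mem (O.mul_mem hN (O.pow_mem hu 2)) hx₂

end Pool.Agent.Helper171.DCREDC
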